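import Pool.Agent.H467R2.Aug.Closed
import Pool.Agent.Results.MP_30a809_co.RowOne

/-!
# MP_30a809_co, Q2: `e_e(n; k, l)` for all `1 ≤ k < l < n`
-/

set_option autoImplicit false

namespace Pool.Agent.Results.MP_30a809_co.EdgeFull

/-- The edge-connectivity `λ(G)`: the least number of edges whose deletion leaves a disconnected
graph (and `0` if there is no such number, i.e. for the one-vertex graph). -/
noncomputable def lam {V : Type*} (G : SimpleGraph V) : ℕ :=
  sInf {m | ∃ F : Finset (Sym2 V), (F : Set (Sym2 V)) ⊆ G.edgeSet ∧ F.card = m ∧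
    ¬ (G.deleteEdges (F : Set (Sym2 V))).Connected}

/-- Every `k`-edge-connected graph of order `n` becomes `l`-edge-connected after adding at most
`e` suitable edges. -/
def Works (n k l e : ℕ) : Prop :=
  ∀ G : SimpleGraph (Fin n), k ≤ lam G →
    ∃ H : SimpleGraph (Fin n), G ≤ H ∧ l ≤ lam H ∧ (H.edgeSet \ G.edgeSet).ncard ≤ e

/-- the largest odd number which is at most `x` (and `0` for `x = 0`) -/
def oddFloor (x : ℕ) : ℕ := x - (x + 1) % 2

/-- the correction term; `a = n - k`, `c = n - l`; all subtractions are truncated at `0` -/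
def corr (n a c : ℕ) : ℕ :=
  if a % 2 = 1 then
    (if c % 2 = 1 then 0 else n / a - (n / a + n) % 2 - n % 2)
  else if c % 2 = 0 then
    (a - c) * (n / a ^ 2) + (oddFloor ((n % a ^ 2 - 1) / (a + 1) - n % 2) - (c - 1)) -
      (if n % 2 = 1 ∧ n % a ^ 2 < a + 1 then 2 else 0)
  else
    (c - 1) * (n / a ^ 2) + (oddFloor ((n % a ^ 2 - 1) / (a + 1) + n % 2) - (a - c))

/-- the value of `e_e(n; k, l)` -/
def value (n k l : ℕ) : ℕ :=
  if k = 1 then ((n - 1) * (l - 1) + 1) / 2
  else (n * l + 1) / 2 - (n * k + 1) / 2 + corr n (n - k) (n - l) / 2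

/-- **Q2.** For all `1 ≤ k < l < n`, `e_e(n; k, l) = value n k l`. -/
theorem result (n k l : ℕ) (hk : 1 ≤ k) (hkl : k < l) (hln : l < n) :
    IsLeast {e | Works n k l e} (value n k l) := by
  unfold value
  by_cases h : k = 1
  · subst h
    rw [if_pos rfl]
    exact Pool.Agent.Results.MP_30a809_co.RowOne.result n l hkl hln
  · rw [if_neg h]
    exact H467Aug.closed n k l (by omega) hkl hln

end Pool.Agent.Results.MP_30a809_co.EdgeFull
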